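import Mathlib
import Pool.Agent.H20.W.InstD
import Pool.Agent.H95.W.PosK
import Pool.Agent.H62.W.TotII
import Pool.Agent.H60.W.InpD

set_option autoImplicit false
open Filter Topology Set

/-! # Chart II: geometry of the zone at the positions over a compact set

Zone `ZQ a b y0 y1` with `a = n W - ⌈η n⌉`, `b = n W + n`, `y0 = -n`, `y1 = n H + n - 1`. `gdII` : 62's `GII` and
60's `ScD`, for all positions over a compact set of the room. -/

namespace Pool.Agent.H8.W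

open Pool.Agent.Q1.M4 (lat)
open Pool.Agent.H54.W (CD Win)
open Pool.Agent.H20.W (OmC Dz crz LowC)
open Pool.Agent.H62.W (GII)
open Pool.Agent.H60.W.II (ScD)

variable {C : CD} {c0 : Bool}

/-- the ends of the rows are in the last but one column of cells -/
lemma wa_le (C : CD) {n : ℤ} (hn : 0 < n) {y : ℤ} (h0 : 0 ≤ y) (h1 : y < n * C.H) :
    C.wa n y ≤ n * C.W - n := by
  have hY0 : 0 ≤ y / n := Int.ediv_nonneg h0 hn.le
  have hY1 : y / n < C.H := by
    rw [Int.ediv_lt_iff_lt_mul hn]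
    linarith [mul_comm n C.H]
  have h2 := C.AW (y / n) hY0 hY1
  have h3 : n * C.A (y / n) ≤ n * (C.W - 1) := mul_le_mul_of_nonneg_left (by omega) hn.le
  rw [mul_sub, mul_one] at h3
  rcases C.wa_cases n y with ⟨-, e⟩ | ⟨-, e⟩ <;> omega

/-- **Geometry of chart II.** -/
theorem gdII {K : Set ℂ} (hK : K ⊆ OmC C) (hKc : IsCompact K) : ∃ η0 > 0, ∀ η : ℝ, 0 < η → η ≤ η0 →
    ∃ m1 : ℕ, ∀ m : ℕ, m1 ≤ m → ∀ (he : (2 * (m : ℤ)) % 2 = 0) (h8 : 8 ≤ 2 * (m : ℤ)) (v : ℤ × ℤ),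
    lat v / (((2 * m : ℕ) : ℝ) : ℂ) ∈ K →
    ∃ (G : GII (Dz C (2 * m) c0 he h8 v.2) v.2 v.1 (2 * (m : ℤ) * C.W - ⌈η * ((2 * m : ℕ) : ℝ)⌉)
        (2 * (m : ℤ) * C.W + 2 * (m : ℤ)) (-(2 * (m : ℤ))) (2 * (m : ℤ) * C.H + 2 * (m : ℤ) - 1) c0)
      (h1 : 2 * (m : ℤ) * C.W - ⌈η * ((2 * m : ℕ) : ℝ)⌉ + 8 ≤ (Dz C (2 * m) c0 he h8 v.2).w)
      (h2 : 9 ≤ (Dz C (2 * m) c0 he h8 v.2).h)
      (h3 : (Dz C (2 * m) c0 he h8 v.2).w + 2 ≤ 2 * (m : ℤ) * C.W + 2 * (m : ℤ)),
      ScD η (2 * m) (G.rb h1 h2 h3) := by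
  obtain ⟨δ, hδ, n0, hpos⟩ := Pool.Agent.H95.W.pos_K C hK hKc
  have hH : (0 : ℝ) < C.H := by exact_mod_cast C.H0
  refine ⟨min (δ / 2) (min (1 / 2) (1 / C.H)), by positivity, fun η hη hη0 => ?_⟩
  have e1 : η ≤ δ / 2 := hη0.trans (min_le_left _ _)
  have e2 : η ≤ 1 / 2 := hη0.trans ((min_le_right _ _).trans (min_le_left _ _))
  have e3 : η ≤ 1 / C.H := hη0.trans ((min_le_right _ _).trans (min_le_right _ _))
  obtain ⟨N1, hN1⟩ := exists_nat_gt (16 / η)
  refine ⟨max n0 (max N1 16), fun m hm he h8 v hv => ?_⟩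
  have m0 : n0 ≤ m := (le_max_left _ _).trans hm
  have m1 : N1 ≤ m := ((le_max_left _ _).trans (le_max_right _ _)).trans hm
  have m2 : 16 ≤ m := ((le_max_right _ _).trans (le_max_right _ _)).trans hm
  have m1' : (N1 : ℝ) ≤ m := by exact_mod_cast m1
  have m2' : (16 : ℝ) ≤ m := by exact_mod_cast m2
  have hηm : 16 < η * m := by
    have := hN1.trans_le m1'
    rw [div_lt_iff₀ hη] at this
    linarith
  set n : ℤ := 2 * (m : ℤ) with hn
  have hnR : ((2 * m : ℕ) : ℝ) = (n : ℝ) := by rw [hn]; push_cast; ring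
  have hnr : (n : ℝ) = 2 * m := by rw [hn]; push_cast; ring
  rw [hnR] at hv ⊢
  have hn0 : (n0 : ℤ) ≤ n := by omega
  obtain ⟨hnp, hp⟩ := hpos n hn0
  have hp := hp v hv
  -- the moving end is far from the walls
  have hn32 : (32 : ℝ) ≤ n := by rw [hnr]; linarith
  have hηn : 32 < η * n := by rw [hnr]; nlinarith
  have c1 := Int.le_ceil (η * (n : ℝ))
  have c2 := Int.ceil_lt_add_one (η * (n : ℝ))
  set q : ℤ := ⌈η * (n : ℝ)⌉ with hq
  have q8 : 32 ≤ q := by
    have : (32 : ℝ) < q := by linarith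
    exact_mod_cast this.le
  have q1 : (q : ℝ) ≤ δ * n := by
    have h1 : η * n ≤ δ / 2 * n := mul_le_mul_of_nonneg_right e1 (by positivity)
    nlinarith
  have q2 : q ≤ n := by
    have h1 : η * n ≤ 1 / 2 * n := mul_le_mul_of_nonneg_right e2 (by positivity)
    have : (q : ℝ) ≤ n := by linarith
    exact_mod_cast this
  have hvx : v.1 + q < n * C.W := by
    refine (hp (v.1 + q) v.2 ?_ ?_).2.2.2
    · have : ((v.1 + q - v.1 : ℤ) : ℝ) = q := by push_cast; ring
      rw [this, abs_of_nonneg (by have : (0 : ℝ) ≤ (32 : ℝ) := by norm_num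
                                  have h2 : (32 : ℝ) ≤ q := by exact_mod_cast q8
                                  linarith)]
      linarith
    · simp only [sub_self, Int.cast_zero, abs_zero]
      positivity
  have hδn : 2 ≤ δ * n := by nlinarith
  have hvy0 : 0 ≤ v.2 - 2 := by
    refine (hp v.1 (v.2 - 2) ?_ ?_).1
    · simp only [sub_self, Int.cast_zero, abs_zero]; positivity
    · have : ((v.2 - 2 - v.2 : ℤ) : ℝ) = -2 := by push_cast; ring
      rw [this, abs_neg, abs_of_nonneg (by norm_num)]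
      exact hδn
  have hvy1 : v.2 + 2 < n * C.H := by
    refine (hp v.1 (v.2 + 2) ?_ ?_).2.1
    · simp only [sub_self, Int.cast_zero, abs_zero]; positivity
    · have : ((v.2 + 2 - v.2 : ℤ) : ℝ) = 2 := by push_cast; ring
      rw [this, abs_of_nonneg (by norm_num)]
      exact hδn
  have hHn : n ≤ n * C.H := by
    have := C.H0
    nlinarith
  have ew : (Dz C n c0 he h8 v.2).w = n * C.W := rfl
  have eh : (Dz C n c0 he h8 v.2).h = n * C.H := rfl
  have ea : ∀ y, (Dz C n c0 he h8 v.2).a y = C.wa n y := fun _ => rfl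
  have ecr : ∀ y, (Dz C n c0 he h8 v.2).cr y = crz c0 v.2 y := fun _ => rfl
  have n32 : 32 ≤ n := by omega
  have G : GII (Dz C n c0 he h8 v.2) v.2 v.1 (n * C.W - q) (n * C.W + n) (-n) (n * C.H + n - 1) c0 := by
    refine ⟨by omega, by rw [eh]; omega, by linarith, fun y h1 h2 => ?_, by rw [ew]; linarith, by rw [ew]; linarith,
      by omega, by rw [eh]; linarith, fun y h1 h2 h3 => ?_⟩
    · rw [ea]
      rw [eh] at h2
      have := wa_le C hnp h1 h2
      omega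
    · rw [ecr]
      rfl
  refine ⟨G, by rw [ew]; linarith, by rw [eh]; linarith, by rw [ew]; linarith, ?_⟩
  have hnpr : (0 : ℝ) < n := by exact_mod_cast hnp
  have hHn' : (n : ℝ) ≤ n * C.H := by exact_mod_cast hHn
  refine ⟨?_, ?_, ?_, ?_⟩
  · rw [hnR]
    change η * n ≤ ((n * C.H - 1 : ℤ) : ℝ)
    push_cast
    nlinarith
  · rw [hnR]
    change ((n * C.H - 1 : ℤ) : ℝ) ≤ n / η
    rw [le_div_iff₀ hη]
    push_cast
    have h1 : η * C.H ≤ 1 := by
      have := mul_le_mul_of_nonneg_right e3 hH.le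
      rwa [one_div, inv_mul_cancel₀ hH.ne'] at this
    nlinarith
  · rw [hnR]
    change η * n ≤ ((n * C.W - (n * C.W - q) : ℤ) : ℝ)
    push_cast
    linarith
  · rw [hnR]
    change η * n ≤ ((n * C.W + n - n * C.W : ℤ) : ℝ)
    push_cast
    nlinarith

end Pool.Agent.H8.W
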