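import Mathlib
import Pool.Agent.H13.W.Graph
import Pool.Agent.H33.Q1.Tile

set_option autoImplicit false
open Finset

/-! # C6 / J7 (near bound): taking out the two deleted rows

World with the deleted row `y = yR` on the right (`0 ≤ x`) and `y = yL` on the left (`x < 0`), outside a box of
radius `ρ`. `Up` : above the deleted row. `φ` : label in the plain world (the upper part is shifted down by one
row). `pf c` : face (index) of the corner `c` in the plain world. `strand_path` : a strand which goes from the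
inner box to the distance `R0` gives a dual path of the plain world. -/

namespace Pool.Agent.H8.W

open Pool.Agent.H75.Perc Pool.Agent.H75.TwoArm Pool.Agent.H33.Q1 Pool.Agent.H13.W

/-- column -/
def pX (p : ℤ × ℤ) : ℤ := (p.1 + p.2 - 1) / 2
/-- row -/
def pY (p : ℤ × ℤ) : ℤ := (p.2 - p.1) / 2

/-- the deleted row -/
def dr (yL yR x : ℤ) : ℤ := if x < 0 then yL else yR

/-- above the deleted row -/
def Up (yL yR : ℤ) (p : ℤ × ℤ) : Prop := dr yL yR (pX p) < pY p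

instance (yL yR : ℤ) (p : ℤ × ℤ) : Decidable (Up yL yR p) := by unfold Up; infer_instance

/-- label of the plain world -/
def pl (yL yR : ℤ) (e : ℤ × ℤ) : ℤ × ℤ := if Up yL yR e then (e.1 + 1, e.2 - 1) else e

/-- vertex of a corner -/
def vx (c : ℤ × ℤ) : ℤ × ℤ := (c.1 / 2, c.2 / 2)

/-- face index of the corner in the plain world -/
def pfc (yL yR : ℤ) (c : ℤ × ℤ) : ℤ × ℤ := if Up yL yR c then ((vx c).1 + 1, (vx c).2) else fi c

/-- square of the label lattice -/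
def Sq (r : ℤ) (p : ℤ × ℤ) : Prop := (-r ≤ p.1 ∧ p.1 ≤ r) ∧ (-r ≤ p.2 ∧ p.2 ≤ r)

lemma tt_eq {e : ℤ × ℤ} (he : (e.1 + e.2) % 2 = 1) : tt e = (pX e, pY e) := by
  unfold tt pX pY
  refine Prod.ext rfl ?_
  simp only
  omega

/-- one step through a natural tile -/
lemma TJ_nat {D : Set (ℤ × ℤ)} {w : Finset (ℤ × ℤ)} {e c d : ℤ × ℤ} (h : TJ D w e c d)
    (he : e ∉ D) :
    (e ∈ w ∧ fi c = fi d ∧ IsUnit4 (vx d - vx c) ∧ vx c + vx d = e) ∨
      (e ∉ w ∧ vx c = vx d ∧ IsUnit4 (fi d - fi c) ∧ fi c + fi d = (e.1 + 1, e.2 + 1)) := by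
  have key : ∀ c d : ℤ × ℤ, lab c = e → nx w c = d →
      ((e ∈ w ∧ fi c = fi d ∧ IsUnit4 (vx d - vx c) ∧ vx c + vx d = e) ∨
      (e ∉ w ∧ vx c = vx d ∧ IsUnit4 (fi d - fi c) ∧ fi c + fi d = (e.1 + 1, e.2 + 1))) := by
    intro c d h1 h2
    obtain ⟨a, b⟩ := c
    obtain ⟨e1, e2⟩ := e
    obtain ⟨d1, d2⟩ := d
    unfold nx at h2
    rw [h1] at h2
    by_cases hw : ((e1, e2) : ℤ × ℤ) ∈ w
    · left
      rw [if_pos hw] at h2
      refine ⟨hw, ?_⟩
      rcases ty_cases (a, b) with ⟨-, k1, k2, k3, k4, k5⟩ | ⟨-, k1, k2, k3, k4, k5⟩ |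
          ⟨-, k1, k2, k3, k4, k5⟩ | ⟨-, k1, k2, k3, k4, k5⟩ <;>
      rw [k3] at h1 <;> rw [k5] at h2 <;> simp only [Prod.mk.injEq] at h1 h2 k1 k2 <;>
      unfold fi vx IsUnit4 <;>
      simp only [Prod.ext_iff, Prod.fst_sub, Prod.snd_sub, Prod.fst_add, Prod.snd_add] <;> omega
    · right
      rw [if_neg hw] at h2
      refine ⟨hw, ?_⟩
      rcases ty_cases (a, b) with ⟨-, k1, k2, k3, k4, k5⟩ | ⟨-, k1, k2, k3, k4, k5⟩ |
          ⟨-, k1, k2, k3, k4, k5⟩ | ⟨-, k1, k2, k3, k4, k5⟩ <;>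
      rw [k3] at h1 <;> rw [k4] at h2 <;> simp only [Prod.mk.injEq] at h1 h2 k1 k2 <;>
      unfold fi vx IsUnit4 <;>
      simp only [Prod.ext_iff, Prod.fst_sub, Prod.snd_sub, Prod.fst_add, Prod.snd_add] <;> omega
  rcases h with ⟨h1, -⟩ | ⟨-, h1 | h1⟩
  · exact absurd h1 he
  · exact key c d h1.1 h1.2
  · rcases key d c h1.1 h1.2 with ⟨k1, k2, k3, k4⟩ | ⟨k1, k2, k3, k4⟩
    · refine Or.inl ⟨k1, k2.symm, ?_, by rw [add_comm]; exact k4⟩
      have := isUnit4_neg k3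
      rwa [neg_sub] at this
    · refine Or.inr ⟨k1, k2.symm, ?_, by rw [add_comm]; exact k4⟩
      have := isUnit4_neg k3
      rwa [neg_sub] at this

/-- position of the sides of a tile -/
lemma side_pos {e : ℤ × ℤ} (he : (e.1 + e.2) % 2 = 1) {c : ℤ × ℤ} (h : e = lab c ∨ e = plab c) :
    (c = eW e ∧ pX c = pX e ∧ pY c = pY e) ∨ (c = eS e ∧ pX c = pX e ∧ pY c = pY e) ∨
      (c = eE e ∧ pX c = pX e + 1 ∧ pY c = pY e) ∨ (c = eN e ∧ pX c = pX e ∧ pY c = pY e + 1) := by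
  rcases side_cases c h with h1 | h1 | h1 | h1
  · left
    refine ⟨h1, ?_, ?_⟩ <;> rw [h1] <;> rfl
  · right; right; left
    refine ⟨h1, ?_, ?_⟩ <;> rw [h1] <;> simp only [pX, pY, eE] <;> omega
  · right; left
    refine ⟨h1, ?_, ?_⟩ <;> rw [h1] <;> simp only [pX, pY, eS] <;> omega
  · right; right; right
    refine ⟨h1, ?_, ?_⟩ <;> rw [h1] <;> simp only [pX, pY, eN] <;> omega

/-- the sides of a natural tile outside the inner square are above iff the tile is -/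
lemma up_side {yL yR ρ X Y X' Y' : ℤ} (y1 : -ρ + 2 ≤ yL ∧ yL ≤ ρ - 2)
    (y2 : -ρ + 2 ≤ yR ∧ yR ≤ ρ - 2)
    (hn : X - Y ≤ -ρ ∨ ρ ≤ X - Y ∨ X + Y + 1 ≤ -ρ ∨ ρ ≤ X + Y + 1)
    (hy : Y ≠ dr yL yR X)
    (h : (X' = X ∧ Y' = Y) ∨ (X' = X + 1 ∧ Y' = Y) ∨ (X' = X ∧ Y' = Y + 1)) :
    (dr yL yR X' < Y' ↔ dr yL yR X < Y) := by
  rcases h with ⟨rfl, rfl⟩ | ⟨rfl, rfl⟩ | ⟨rfl, rfl⟩
  · rfl
  · unfold dr at *
    split_ifs at * <;> omega
  · constructor
    · intro h1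
      omega
    · intro h1
      omega

/-- the sides of a tile are near the label -/
lemma side_near {e c : ℤ × ℤ} (h : e = lab c ∨ e = plab c) :
    (e.1 ≤ c.1 ∧ c.1 ≤ e.1 + 1) ∧ (e.2 ≤ c.2 ∧ c.2 ≤ e.2 + 1) := by
  rcases side_cases c h with rfl | rfl | rfl | rfl <;> simp [eW, eE, eS, eN]

/-- the face is near the corner -/
lemma pfc_near {yL yR : ℤ} (c : ℤ × ℤ) :
    (c.1 ≤ 2 * (pfc yL yR c).1 ∧ 2 * (pfc yL yR c).1 ≤ c.1 + 2) ∧
      (c.2 - 1 ≤ 2 * (pfc yL yR c).2 ∧ 2 * (pfc yL yR c).2 ≤ c.2 + 1) := by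
  obtain ⟨a, b⟩ := c
  unfold pfc
  split_ifs
  · unfold vx; simp only; omega
  · unfold fi; simp only; omega

lemma pfc_up {yL yR : ℤ} {c : ℤ × ℤ} (h : Up yL yR c) :
    pfc yL yR c = ((vx c).1 + 1, (vx c).2) := if_pos h

lemma pfc_lo {yL yR : ℤ} {c : ℤ × ℤ} (h : ¬ Up yL yR c) : pfc yL yR c = fi c := if_neg h

lemma ad_fi {F w' : Finset (ℤ × ℤ)} {e f g : ℤ × ℤ} (h1 : IsUnit4 (g - f))
    (h2 : f + g = (e.1 + 1, e.2 + 1)) (h3 : e ∈ F \ w') : Ad (du F w') f g := by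
  refine ⟨h1, ?_⟩
  unfold du
  rw [mem_map]
  exact ⟨e, h3, h2.symm⟩

lemma ad_shift {F w' : Finset (ℤ × ℤ)} {e f g : ℤ × ℤ} (h1 : IsUnit4 (g - f)) (h2 : f + g = e)
    (h3 : ((e.1 + 1, e.2 - 1) : ℤ × ℤ) ∈ F \ w') :
    Ad (du F w') (f.1 + 1, f.2) (g.1 + 1, g.2) := by
  refine ad_fi (e := (e.1 + 1, e.2 - 1)) ?_ ?_ h3
  · have : (((g.1 + 1, g.2) : ℤ × ℤ) - (f.1 + 1, f.2)) = g - f := by
      refine Prod.ext ?_ ?_ <;> simp
    rw [this]
    exact h1
  · rw [← h2]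
    refine Prod.ext ?_ ?_ <;> simp only [Prod.fst_add, Prod.snd_add] <;> ring

section

variable {Λ D : Set (ℤ × ℤ)} {w F w' : Finset (ℤ × ℤ)} {yL yR ρ R : ℤ}

/-- the data of the annulus -/
structure AnnOK (Λ D : Set (ℤ × ℤ)) (w F w' : Finset (ℤ × ℤ)) (yL yR ρ R : ℤ) : Prop where
  odd : ∀ e ∈ Λ, (e.1 + e.2) % 2 = 1
  y1 : -ρ + 2 ≤ yL ∧ yL ≤ ρ - 2
  y2 : -ρ + 2 ≤ yR ∧ yR ≤ ρ - 2
  del : ∀ e ∈ Λ, ¬ Sq (ρ - 1) e → Sq R e → (e ∈ D ↔ pY e = dr yL yR (pX e))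
  nat : ∀ e ∈ Λ, ¬ Sq (ρ - 1) e → Sq R e → e ∉ D → pl yL yR e ∈ F ∧
    (pl yL yR e ∈ w' ↔ ((e ∈ w ∧ ¬ Up yL yR e) ∨ (e ∉ w ∧ Up yL yR e)))

/-- one step in the annulus -/
lemma AnnOK.step (H : AnnOK Λ D w F w' yL yR ρ R) {c d e : ℤ × ℤ} (he : e ∈ Λ)
    (h1 : ¬ Sq (ρ - 1) e) (h2 : Sq R e) (h : TJ D w e c d) :
    pfc yL yR c = pfc yL yR d ∨ Ad (du F w') (pfc yL yR c) (pfc yL yR d) := by
  have ho := H.odd e he
  have y1 := H.y1
  have y2 := H.y2
  have hc := side_pos ho h.label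
  have hd := side_pos ho h.label'
  by_cases hD : e ∈ D
  · -- deleted tile
    left
    have hy := (H.del e he h1 h2).1 hD
    have key : pfc yL yR (eS e) = pfc yL yR (eN e) := by
      obtain ⟨e1, e2⟩ := e
      have n1 : ¬ Up yL yR (eS (e1, e2)) := by
        unfold Up
        have a1 : pX (eS (e1, e2)) = pX (e1, e2) := by
          unfold pX eS; simp only at ho ⊢; omega
        have a2 : pY (eS (e1, e2)) = pY (e1, e2) := by
          unfold pY eS; simp only at ho ⊢; omega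
        rw [a1, a2, hy]
        exact lt_irrefl _
      have n2 : Up yL yR (eN (e1, e2)) := by
        unfold Up
        have a1 : pX (eN (e1, e2)) = pX (e1, e2) := by
          unfold pX eN; simp only at ho ⊢; omega
        have a2 : pY (eN (e1, e2)) = pY (e1, e2) + 1 := by
          unfold pY eN; simp only at ho ⊢; omega
        rw [a1, a2, ← hy]
        omega
      unfold pfc
      rw [if_neg n1, if_pos n2]
      unfold fi vx eS eN
      refine Prod.ext ?_ ?_ <;> simp only <;> omega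
    rcases h with ⟨-, -, h3 | h3⟩ | ⟨h3, -⟩
    · rw [h3.1, h3.2, key]
    · rw [h3.1, h3.2, key]
    · exact absurd hD h3
  · have hy : pY e ≠ dr yL yR (pX e) := fun h3 => hD ((H.del e he h1 h2).2 h3)
    obtain ⟨hF, hw⟩ := H.nat e he h1 h2 hD
    have hup : ∀ x : ℤ × ℤ, ((x = eW e ∧ pX x = pX e ∧ pY x = pY e) ∨
        (x = eS e ∧ pX x = pX e ∧ pY x = pY e) ∨ (x = eE e ∧ pX x = pX e + 1 ∧ pY x = pY e) ∨
        (x = eN e ∧ pX x = pX e ∧ pY x = pY e + 1)) → (Up yL yR x ↔ Up yL yR e) := by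
      intro x hx
      refine up_side y1 y2 ?_ hy ?_
      · have e1 : pX e - pY e = e.1 := by unfold pX pY; omega
        have e2 : pX e + pY e + 1 = e.2 := by unfold pX pY; omega
        rw [e1, e2]
        unfold Sq at h1
        omega
      rcases hx with ⟨-, k1, k2⟩ | ⟨-, k1, k2⟩ | ⟨-, k1, k2⟩ | ⟨-, k1, k2⟩
      · exact Or.inl ⟨k1, k2⟩
      · exact Or.inl ⟨k1, k2⟩
      · exact Or.inr (Or.inl ⟨k1, k2⟩)
      · exact Or.inr (Or.inr ⟨k1, k2⟩)
    have uc := hup c hc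
    have ud := hup d hd
    rcases TJ_nat h hD with ⟨k1, k2, k3, k4⟩ | ⟨k1, k2, k3, k4⟩
    · by_cases u : Up yL yR e
      · right
        rw [pfc_up (uc.2 u), pfc_up (ud.2 u)]
        refine ad_shift k3 k4 ?_
        have h4 : pl yL yR e = (e.1 + 1, e.2 - 1) := if_pos u
        rw [← h4]
        refine mem_sdiff.2 ⟨hF, fun h3 => ?_⟩
        rcases hw.1 h3 with h5 | h5
        · exact h5.2 u
        · exact h5.1 k1
      · left
        rw [pfc_lo (fun h3 => u (uc.1 h3)), pfc_lo (fun h3 => u (ud.1 h3)), k2]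
    · by_cases u : Up yL yR e
      · left
        rw [pfc_up (uc.2 u), pfc_up (ud.2 u), k2]
      · right
        rw [pfc_lo (fun h3 => u (uc.1 h3)), pfc_lo (fun h3 => u (ud.1 h3))]
        refine ad_fi k3 k4 ?_
        have h4 : pl yL yR e = e := if_neg u
        rw [h4] at hF hw
        refine mem_sdiff.2 ⟨hF, fun h3 => ?_⟩
        rcases hw.1 h3 with h5 | h5
        · exact k1 h5.1
        · exact u h5.2

/-- **A strand which goes from the inner square to the distance `R` gives a dual path of the plain world.** -/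
theorem AnnOK.strand_path (H : AnnOK Λ D w F w' yL yR ρ R) (hR : ρ < R) {c0 c1 : ℤ × ℤ}
    (hr : (SG Λ D w).Reachable c0 c1) (h0 : Sq ρ c0) (h1 : ¬ Sq (R - 1) c1) :
    ∃ c d, Sq ρ c ∧ ¬ Sq (R - 1) d ∧ Co (du F w') (pfc yL yR c) (pfc yL yR d) := by
  by_contra hno
  push Not at hno
  have hr' := (SimpleGraph.reachable_iff_reflTransGen _ _).1 hr
  have key : ∀ c, Relation.ReflTransGen (SG Λ D w).Adj c0 c →
      Sq (R - 1) c ∧ (Sq ρ c ∨ ∃ f, Sq ρ f ∧ Co (du F w') (pfc yL yR f) (pfc yL yR c)) := by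
    intro c hc
    induction hc with
    | refl =>
      refine ⟨?_, Or.inl h0⟩
      unfold Sq at *
      omega
    | @tail c d _ hcd ih =>
      obtain ⟨ih1, ih2⟩ := ih
      obtain ⟨e, he, hT⟩ := hcd
      have hc := side_near hT.label
      have hd := side_near hT.label'
      by_cases hn : Sq ρ d
      · exact ⟨by unfold Sq at *; omega, Or.inl hn⟩
      have hρe : ¬ Sq (ρ - 1) e := by
        intro h3
        apply hn
        unfold Sq at *
        omega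
      have hRe : Sq R e := by
        unfold Sq at *
        omega
      have hstep := H.step he hρe hRe hT
      have hf : ∃ f, Sq ρ f ∧ Co (du F w') (pfc yL yR f) (pfc yL yR d) := by
        have hCo : Co (du F w') (pfc yL yR c) (pfc yL yR d) := by
          rcases hstep with h3 | h3
          · rw [h3]; exact Co.refl _ _
          · exact Relation.ReflTransGen.single h3
        rcases ih2 with h3 | ⟨f, h3, h4⟩
        · exact ⟨c, h3, hCo⟩
        · exact ⟨f, h3, h4.trans hCo⟩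
      refine ⟨?_, Or.inr hf⟩
      obtain ⟨f, h3, h4⟩ := hf
      by_contra h5
      exact hno f d h3 h5 h4
  exact h1 (key c1 hr').1

end

end Pool.Agent.H8.W
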