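import Mathlib
import Pool.Agent.H8.W.NMap
import Pool.Agent.H57.W.NLem

set_option autoImplicit false
open Finset

/-! # C6, J7 (`YNear`), step N1: a strand of the `Y` world which leaves the inner square gives a dual arm of the
plain world -/

namespace Pool.Agent.H8.W

open Pool.Agent.H75.Perc hiding WL CT hh PB GG ph
open Pool.Agent.H75.TwoArm Pool.Agent.H60.Q1
open Pool.Agent.H33.Q1 hiding cT
open Pool.Agent.H58.W Pool.Agent.H50.W Pool.Agent.H6.W Pool.Agent.H61.W Pool.Agent.H13.W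
open Pool.Agent.H91.W Pool.Agent.H57.W


variable {b : JBox} {h : ℕ} {w s : Bool} {x1 : ℤ} {c3 c4 : Bool × ℕ} {v : ℤ × ℤ}
  {ω : Finset (ℤ × ℤ)} {ρ R0 : ℤ}

lemma pX_eq (e : ℤ × ℤ) : pX e = tX e := rfl

lemma pY_eq {e : ℤ × ℤ} (he : (e.1 + e.2) % 2 = 1) : pY e = tY e := by
  unfold pY tY; omega

lemma Up_iff {r0 : ℤ} {e : ℤ × ℤ} (he : (e.1 + e.2) % 2 = 1) :
    Up (Yr s) r0 e ↔ Upr s r0 e := by
  unfold Up Upr dr
  rw [pX_eq, pY_eq he]
  split_ifs <;> omega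

lemma pl_eq {r0 : ℤ} {e : ℤ × ℤ} (he : (e.1 + e.2) % 2 = 1) :
    pl (Yr s) r0 e = dn s r0 e := by
  unfold pl dn
  by_cases h1 : Upr s r0 e
  · rw [if_pos h1, if_pos ((Up_iff he).2 h1)]
  · rw [if_neg h1, if_neg (fun h2 => h1 ((Up_iff he).1 h2))]

lemma Dlr_iff {r0 : ℤ} {e : ℤ × ℤ} (he : (e.1 + e.2) % 2 = 1) :
    Dlr s r0 e ↔ pY e = dr (Yr s) r0 (pX e) := by
  unfold Dlr dr
  rw [pX_eq, pY_eq he]
  split_ifs <;> omega

lemma Yr_bd (s : Bool) : -1 ≤ Yr s ∧ Yr s ≤ 0 := by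
  unfold Yr; split_ifs <;> omega

/-- the deleted tiles in the annulus -/
lemma mem_del (N : NN b h x1 v ρ R0) {X Y : ℤ}
    (hn : ¬ Sq (ρ - 1) (lt (X, Y))) :
    lt (X, Y) ∈ lt '' (strD v ∪ slD s x1) ↔ Y = dr (Yr s) v.2 X := by
  have h1 : lt (X, Y) ∈ lt '' (strD v ∪ slD s x1) ↔ (Y = v.2 ∧ v.1 ≤ X) ∨ (Y = Yr s ∧ X < x1) := by
    constructor
    · rintro ⟨p, hp, h2⟩
      have := lt_inj h2
      subst this
      exact hp
    · intro h2
      exact ⟨(X, Y), h2, rfl⟩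
  rw [h1]
  have hv := N.hv
  have hx := N.x10
  have hx' := N.x1ρ
  have hY := Yr_bd s
  have a1 := neg_abs_le v.1
  have a2 := le_abs_self v.1
  have a3 := neg_abs_le v.2
  have a4 := le_abs_self v.2
  unfold Sq lt at hn
  simp only at hn
  unfold dr
  split_ifs with h3
  · constructor
    · rintro (⟨h4, h5⟩ | ⟨h4, h5⟩)
      · omega
      · exact h4
    · intro h4
      refine Or.inr ⟨h4, ?_⟩
      by_contra h5
      omega
  · constructor
    · rintro (⟨h4, h5⟩ | ⟨h4, h5⟩)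
      · exact h4
      · omega
    · intro h4
      refine Or.inl ⟨h4, ?_⟩
      by_contra h5
      omega

/-- the annulus of the `Y` world -/
lemma annOK (N : NN b h x1 v ρ R0) (hω : ω ⊆ b.B h) (o : Bool) :
    AnnOK (Lam b (2 * h) {c3, c4}) (lt '' (strD v ∪ slD s x1))
      (symmDiff (cfg b h o ω) (flp b h s x1) ∪ Wl b (2 * h) (colM (bsP w s) {c3, c4} (some v.2)))
      (Op b h s v.2 ρ R0) (wp b h s v.2 x1 (Oa b h s v.2 ρ R0) ω) (Yr s) v.2 ρ R0 := by
  have hv := N.hv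
  have hY := Yr_bd s
  have a0 := abs_nonneg v.1
  have a3 := neg_abs_le v.2
  have a4 := le_abs_self v.2
  have a5 := abs_nonneg v.2
  have odd : ∀ e ∈ Lam b (2 * h) {c3, c4}, (e.1 + e.2) % 2 = 1 := by
    rintro e ⟨x, y, rfl, -⟩
    exact lt_odd _
  refine ⟨odd, by omega, by omega, ?_, ?_⟩
  · intro e he h1 _
    have ho := odd e he
    have h2 : lt (tX e, tY e) = e := by
      rw [← Pool.Agent.H91.W.tt_eq]; exact lt_tt ho
    rw [pX_eq, pY_eq ho]
    rw [← h2] at h1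
    have := mem_del (s := s) N h1
    rw [h2] at this
    exact this
  · intro e he h1 h2 hD
    have ho := odd e he
    have hnear : ρ ≤ |e.1| ∨ ρ ≤ |e.2| := by
      unfold Sq at h1
      rw [le_abs, le_abs]
      omega
    have hR : |e.1| ≤ R0 ∧ |e.2| ≤ R0 := by
      unfold Sq at h2
      rw [abs_le, abs_le]
      omega
    have hB : e ∈ b.B h := N.box e ho hR.1 hR.2
    have h3 : lt (tX e, tY e) = e := by
      rw [← Pool.Agent.H91.W.tt_eq]; exact lt_tt ho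
    have hDl : ¬ Dlr s v.2 e := by
      rw [Dlr_iff ho, pX_eq, pY_eq ho]
      rw [← h3] at h1
      intro h4
      apply hD
      rw [← h3]
      exact (mem_del (s := s) N h1).2 h4
    have hOa : e ∈ Oa b h s v.2 ρ R0 := mem_Oa.2 ⟨hB, hnear, hR, hDl⟩
    have hPl : e ∉ b.Pl h := by
      intro h4
      obtain ⟨h5, h6⟩ := N.chunk e h4
      rcases hnear with h7 | h7 <;> linarith
    rw [pl_eq ho, Up_iff ho]
    refine ⟨mem_image_of_mem _ hOa, ?_⟩
    rw [mem_wp (fun e' he' => (mem_Oa.1 he').2.2.2) hOa, mem_cfg N.hh hB hPl]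

/-- **N1.** -/
theorem cross_OA (N : NN b h x1 v ρ R0) (hω : ω ⊆ b.B h)
    (hC : Cross b h w s x1 c3 c4 v ρ R0 ω) :
    Pool.Agent.H33.Q1.OA 0 (ρ / 2 + 2) (R0 / 2 - 3)
      (du (Op b h s v.2 ρ R0) (wp b h s v.2 x1 (Oa b h s v.2 ρ R0) ω)) := by
  obtain ⟨c0, h0, c1, h1, hr⟩ := hC
  have hρR := N.ρR
  have e0 : Sq ρ c0 := by
    obtain ⟨h2, h3⟩ := h0
    rw [abs_le] at h2 h3
    exact ⟨h2, h3⟩
  have e1 : ¬ Sq (R0 - 1) c1 := by
    unfold Ou at h1
    rw [le_abs, le_abs] at h1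
    unfold Sq
    omega
  obtain ⟨c, d, h2, h3, h4⟩ := (annOK (w := w) (s := s) (c3 := c3) (c4 := c4) N hω true).strand_path
    (by omega) hr e0 e1
  refine ⟨_, _, ?_, ?_, h4⟩
  · have := pfc_near (yL := Yr s) (yR := v.2) c
    unfold Sq at h2
    unfold Near
    rw [abs_le, abs_le]
    simp only [Prod.fst_zero, Prod.snd_zero, sub_zero]
    omega
  · have := pfc_near (yL := Yr s) (yR := v.2) d
    unfold Sq at h3
    unfold Far
    rw [le_abs, le_abs]
    simp only [Prod.fst_zero, Prod.snd_zero, sub_zero]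
    omega

end Pool.Agent.H8.W
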