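import Mathlib
import Pool.Agent.H8.W.NInst
import Pool.Agent.H71.W.JGeo

set_option autoImplicit false
open Finset

/-! # C6, J7: `YNear`, assembly -/

namespace Pool.Agent.H8.W

open Filter Topology Set
open Pool.Agent.Q1.M4 (lat)
open Pool.Agent.H58.W (PB)
open Pool.Agent.H75.TwoArm (du)
open Pool.Agent.H33.Q1 (OA)
open Pool.Agent.H6.W Pool.Agent.H61.W Pool.Agent.H57.W Pool.Agent.H91.W

/-- the numbers and the arm bound (N3) -/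
def NumArm (C e σ0 : ℝ) : Prop :=
  ∀ (b : JBox) (δ σ : ℝ), b.Ok δ σ → 0 < σ → σ ≤ σ0 → 100 * δ ≤ σ → ∀ h : ℕ, 8 ≤ h → ∀ x ∈ Set.Ioo (-σ) 0,
    ∀ v : ℤ × ℤ, ‖lat v‖ ≤ 4 * σ * (2 * h * b.H) → ∃ ρ R0 : ℤ, NN b h (gp b (2 * h) x) v ρ R0 ∧
      ∀ s : Bool, PB (Op b h s v.2 ρ R0)
        (bt2 0 (b.M * (2 * (h : ℤ))) (b.τ * (2 * (h : ℤ)) - 1) (b.τ * (2 * (h : ℤ))) (2 * h))
        (fun w => OA 0 (ρ / 2 + 2) (R0 / 2 - 3) (du (Op b h s v.2 ρ R0) w)) ≤ C * σ ^ e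

/-- the strand of the moving end in the `Y` world has a far end (J2) -/
def FarY {σ : ℝ} (S : Setup σ) : Prop :=
  ∀ b : Bool × ℝ, b.2 ∈ Set.Ioo (-σ) 0 → ∀ᶠ k in atTop, ∀ᶠ n in atTop, ∀ v : ℤ × ℤ,
    InR (S.B k) (2 * S.h k n) v.1 v.2 → ∀ ω ⊆ (S.B k).B (S.h k n), ∀ o : Bool,
    RF (S.B k) (2 * S.h k n) (GY (S.B k) (S.h k n) S.w b.1 (gp (S.B k) (2 * S.h k n) b.2)
        (cor (S.B k) S.b3) (cor (S.B k) S.b4) v o ω) (zc v) (cor (S.B k) S.b3) ∨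
    RF (S.B k) (2 * S.h k n) (GY (S.B k) (S.h k n) S.w b.1 (gp (S.B k) (2 * S.h k n) b.2)
        (cor (S.B k) S.b3) (cor (S.B k) S.b4) v o ω) (zc v) (cor (S.B k) S.b4) ∨
    (GY (S.B k) (S.h k n) S.w b.1 (gp (S.B k) (2 * S.h k n) b.2)
        (cor (S.B k) S.b3) (cor (S.B k) S.b4) v o ω).Reachable (zc v)
          (mc b.1 (gp (S.B k) (2 * S.h k n) b.2))

/-- **J7.** -/
theorem yNear_of {C e σ0 : ℝ} (hN : NumArm C e σ0) {σ : ℝ} (hσ : 0 < σ) (hσ0 : σ ≤ σ0)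
    (S : Setup σ) (hF : FarY S) : S.YNear (3 * C * σ ^ e) := by
  intro b hb
  have hδ : ∀ᶠ k in atTop, 100 * S.δ k ≤ σ := by
    have h1 : Tendsto (fun k => 100 * S.δ k) atTop (𝓝 (100 * 0)) := S.lim.const_mul 100
    rw [mul_zero] at h1
    exact (h1.eventually (gt_mem_nhds hσ)).mono fun k hk => hk.le
  filter_upwards [hδ, hF b hb] with k hk hFk
  intro K hK hKc
  have hh : ∀ᶠ n in atTop, 8 ≤ S.h k n := (S.mono k).tendsto_atTop.eventually_ge_atTop 8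
  filter_upwards [hh, hFk] with n hn hFn
  intro v hvK hvZ
  have hn0 : 0 < S.h k n := by omega
  have hR : 0 < S.R k n := Pool.Agent.H71.W.Setup.R_pos S hn0
  have hv : ‖lat v‖ ≤ 4 * σ * (2 * S.h k n * (S.B k).H) := by
    have h1 : ‖lat v / (S.R k n : ℂ)‖ ≤ 4 * σ := hvZ.2
    rw [norm_div, Complex.norm_real, Real.norm_of_nonneg hR.le, div_le_iff₀ hR] at h1
    exact h1
  have hIn : InR (S.B k) (2 * S.h k n) v.1 v.2 :=
    Pool.Agent.H71.W.Setup.room_mem S hn0 (hK hvK)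
  obtain ⟨ρ, R0, hNN, hA⟩ := hN (S.B k) (S.δ k) σ (S.ok k) hσ hσ0 hk (S.h k n) hn b.2 hb v hv
  have key := ynear_plain (w := S.w) (s := b.1) (c3 := cor (S.B k) S.b3) (c4 := cor (S.B k) S.b4) hNN
    (fun ω hω o => hFn v hIn ω hω o)
    (A := fun w => OA 0 (ρ / 2 + 2) (R0 / 2 - 3) (du (Op (S.B k) (S.h k n) b.1 v.2 ρ R0) w))
    (fun ω hω hC => cross_OA hNN hω hC)
  refine key.trans ?_
  have := hA b.1
  linarith

end Pool.Agent.H8.W
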