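import Pool.Agent.H61.W.JLim
import Pool.Agent.H80.W.Strip
import Pool.Agent.H87.W.HalfWrap

set_option autoImplicit false

/-! # Route W, group W-C: the averaged junction bound for the limit data

`JLimThm` (H61/W/JLim.lean) from the half disc bound (H87/W/HalfWrap.lean) through the chart
`v = sqrt (tanh (π z / 4))` of the slit strip (H80/W/Strip.lean). -/

namespace Pool.Agent.H8.W

open Set Filter Topology Complex
open scoped ComplexConjugate
open Pool.Agent.H61.W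
open Pool.Agent.H87.W (HA cis nn half_disc_bound)
open H80.W (Ps barc bk tk Ps_diff Ps_maps Ps_arc Ps_bank Ps_bank_up Ps_bank_down Ps_near tk_mem
  tk_sq_le' lt_bk_iff bk_lt_iff bk_pos bk_neg ang_barc barc_ang ang_mem ang_inj exists_arc)

lemma phs_eq (a1 a2 a3 a4 : ℝ) : phs a1 a2 a3 a4 = cis (-(Real.pi / 3 * nn a3 a4 a1 a2)) := by
  unfold phs cis passN nn
  congr 2
  push_cast
  ring

/-- the bank point with parameter `t` -/
noncomputable def bkp (t : ℝ) : Bool × ℝ := (decide (0 < t), -bk t)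

lemma bk_abs (t : ℝ) : bk |t| = bk t := by
  rcases abs_choice t with h | h
  · rw [h]
  · rw [h, bk_neg]

lemma bkp_mem {δ t : ℝ} (hδ : 0 < δ) (h0 : 0 < |t|) (h1 : |t| < tk δ) : (bkp t).2 ∈ Ioo (-δ) 0 := by
  have hu := tk_mem hδ
  have h2 : bk |t| < δ := (bk_lt_iff h0.le (h1.trans hu.2) hδ).2 h1
  have h3 : 0 < bk |t| := bk_pos h0 (h1.trans hu.2)
  rw [bk_abs] at h2 h3
  exact ⟨by change -δ < -bk t; linarith, by change -bk t < 0; linarith⟩

theorem jLimThm : JLimThm := by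
  intro L l hl
  set k : ℝ := Real.pi / 2 / Real.cosh (Real.pi * L / 2) with hk
  have hk0 : 0 < k := by
    have := Real.pi_pos
    have := Real.cosh_pos (Real.pi * L / 2)
    positivity
  refine ⟨600 / (k * l) ^ 2, 1 / 20, by norm_num, ?_⟩
  intro δ A M κ b3 b4 hδ hδ0 hA hκ hb3 hb4 hb34 J s1 s2 x1 x2 hx1 hx1' hx2 hx2' q hq
  obtain ⟨α1, β1, hab1, hlen1, hsub1, h01, harc1⟩ := exists_arc s1 hl hx1 hx1'
  obtain ⟨α2, β2, hab2, hlen2, hsub2, h02, harc2⟩ := exists_arc s2 hl hx2 hx2'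
  have hu := tk_mem hδ
  have hu2 := tk_sq_le' hδ
  set u := tk δ with hudef
  have hs2 : (√2 : ℝ) ^ 2 = 2 := Real.sq_sqrt (by norm_num)
  have hs0 : (0:ℝ) < √2 := by positivity
  have hu12 : u ≤ 1 / 2 := by nlinarith [hu.1]
  have hr0 : 0 < √2 * u := mul_pos hs0 hu.1
  have hr12 : √2 * u ≤ 1 / 2 := by
    have h : (√2 * u) ^ 2 ≤ 1 / 4 := by rw [mul_pow, hs2]; nlinarith
    nlinarith
  have hur : u < √2 * u := by nlinarith [hu.1]
  -- the exceptional angles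
  set Z : Set ℝ := {0, ang b3, ang b4} with hZ
  have hZc : Z.Countable := (Set.toFinite _).countable
  have hZ0 : ∀ a, a ∉ Z → a ≠ 0 ∧ a ≠ ang b3 ∧ a ≠ ang b4 := by
    intro a ha
    refine ⟨fun h => ha ?_, fun h => ha ?_, fun h => ha ?_⟩ <;> rw [h, hZ] <;> simp
  have hang : ∀ a ∈ Ioo (-Real.pi) Real.pi \ Z, ang (barc a) = a ∧ barc a ≠ b3 ∧ barc a ≠ b4 := by
    intro a ha
    obtain ⟨e1, e2, e3⟩ := hZ0 a ha.2
    have e4 := ang_barc ha.1 e1
    refine ⟨e4, fun h => e2 ?_, fun h => e3 ?_⟩ <;> rw [← h, e4]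
  have hout : ∀ t : ℝ, u < t → t < 1 → -bk t < -δ := by
    intro t h1 h2
    have := (lt_bk_iff (hu.1.trans h1).le h2 hδ).2 h1
    linarith
  have hκ0 : κ ≠ 0 := by
    intro h
    rw [h, norm_zero] at hκ
    exact zero_ne_one hκ
  have main := half_disc_bound (F := fun a v => J.F (barc a) (Ps v))
    (B := fun t v => J.B (bkp t) (Ps v)) (G := fun t a => J.G (bkp t) (barc a))
    (p := fun a1 a2 => J.p (barc a1) (barc a2)) (u := u) (r := √2 * u) (M := M) (N := A)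
    (a3 := ang b3) (a4 := ang b4) (κ := κ) (Z := Z) (x1 := α1) (y1 := β1) (x2 := α2) (y2 := β2)
    (q := q) hu.1 hu12 hr0 hr12 hZc (ang_mem b3) (ang_mem b4) (fun h => hb34 (ang_inj h))
    (by rw [hZ]; simp) (by rw [hZ]; simp) hκ0 (fun _ _ => J.p_nonneg _ _)
    (fun a ha => (J.F_diff _ (hang a ha).2.1 (hang a ha).2.2).comp Ps_diff Ps_maps)
    (fun a _ v _ => J.F_bdd _ _)
    (fun a1 ha1 a2 ha2 h12 => by
      obtain ⟨e1, e2, e3⟩ := hang a1 ha1
      obtain ⟨f1, f2, f3⟩ := hang a2 ha2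
      have hne : barc a1 ≠ barc a2 := fun h => h12 (by rw [← e1, h, f1])
      have h := (J.F_bd (barc a1) (barc a2) hne e2 e3 f2 f3).comp (Ps_arc (barc a1))
      rw [phs_eq, e1, f1] at h
      have e : κ * (J.p (barc a1) (barc a2) : ℝ) * cis (-(Real.pi / 3 * nn (ang b3) (ang b4) a1 a2)) =
        κ * cis (-(Real.pi / 3 * nn (ang b3) (ang b4) a1 a2)) * (J.p (barc a1) (barc a2) : ℝ) := by
        ring
      rw [e]
      exact h)
    (fun a ha t ht => by
      obtain ⟨y, hy1, hy2⟩ := J.F_odd (barc a) (hang a ha).2.1 (hang a ha).2.2 (-bk t)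
        (hout t ht.1 ht.2)
      exact ⟨y, hy1.comp (Ps_bank_up (hu.1.trans ht.1) ht.2),
        hy2.comp (Ps_bank_down (hu.1.trans ht.1) ht.2)⟩)
    (fun a ha t h0 h1 =>
      (J.F_P (bkp t) (barc a) (bkp_mem hδ h0 h1) (hang a ha).2.1 (hang a ha).2.2).comp
        (Ps_bank (abs_pos.1 h0) (h1.trans hu.2)))
    (fun t h0 h1 => (J.B_diff (bkp t) (bkp_mem hδ h0 h1)).comp Ps_diff Ps_maps)
    (fun t _ _ v _ => J.B_bdd _ _)
    (fun t h0 h1 a ha => by
      obtain ⟨e1, e2, e3⟩ := hang a ha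
      have h := (J.B_bd (bkp t) (barc a) (bkp_mem hδ h0 h1) e2 e3).comp (Ps_arc (barc a))
      rw [e1] at h
      exact h)
    (fun t h0 h1 s hs => by
      obtain ⟨y, hy1, hy2⟩ := J.B_odd (bkp t) (bkp_mem hδ h0 h1) (-bk s)
        (hout s (hur.trans hs.1) hs.2)
      exact ⟨y, hy1.comp (Ps_bank_up (hr0.trans hs.1) hs.2),
        hy2.comp (Ps_bank_down (hr0.trans hs.1) hs.2)⟩)
    (fun t h0 h1 v hv hvr => by
      obtain ⟨e1, e2⟩ := Ps_near hδ hδ0 hvr
      exact J.B_near (bkp t) (bkp_mem hδ h0 h1) _ (Ps_maps hv) e1 e2)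
    (hsub1 (left_mem_Icc.2 hab1.le)).1.le hab1.le (hsub1 (right_mem_Icc.2 hab1.le)).2.le
    (hsub2 (left_mem_Icc.2 hab2.le)).1.le hab2.le (hsub2 (right_mem_Icc.2 hab2.le)).2.le
    (fun a1 ha1 a2 ha2 _ => by
      obtain ⟨y1, hy1, e1⟩ := harc1 a1 (Ioo_subset_Icc_self ha1.1)
      obtain ⟨y2, hy2, e2⟩ := harc2 a2 (Ioo_subset_Icc_self ha2.1)
      rw [← e1, ← e2, barc_ang, barc_ang]
      exact hq y1 hy1 y2 hy2)
  rw [hκ, one_mul] at main
  have hkl : 0 < k * l := mul_pos hk0 hl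
  have hR : 200 * u * (√2 * u) * A ≤ 600 * δ * A := by
    have h1 : √2 ≤ 3 / 2 := by
      rw [Real.sqrt_le_left (by norm_num)]; norm_num
    have h2 : 200 * u * (√2 * u) ≤ 600 * δ := by
      calc 200 * u * (√2 * u) = 200 * √2 * u ^ 2 := by ring
        _ ≤ 200 * (3 / 2) * (2 * δ) := by gcongr
        _ = 600 * δ := by ring
    exact mul_le_mul_of_nonneg_right h2 hA
  rcases le_or_gt q 0 with h0 | h0
  · refine h0.trans ?_
    positivity
  · have h3 : q * (k * l) ^ 2 ≤ q * (β1 - α1) * (β2 - α2) := by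
      calc q * (k * l) ^ 2 = q * (k * l) * (k * l) := by ring
        _ ≤ q * (β1 - α1) * (β2 - α2) := by gcongr
    have h4 : q * (k * l) ^ 2 ≤ 600 * δ * A := (h3.trans main).trans hR
    calc q = q * (k * l) ^ 2 / (k * l) ^ 2 := by field_simp
      _ ≤ 600 * δ * A / (k * l) ^ 2 := by gcongr
      _ = 600 / (k * l) ^ 2 * δ * A := by ring

end Pool.Agent.H8.W
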