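import Pool.Agent.H61.W.ToLim
import Pool.Agent.H8.W.JLimP

set_option autoImplicit false

/-! # Route W, group W-C: the output of the continuum step -/

namespace Pool.Agent.H8.W

/-- **The averaged junction bound** (helpers 61, 80, 87, 8, 16). -/
theorem junctionThm : Pool.Agent.H61.W.JunctionThm := Pool.Agent.H61.W.junctionThm_of jLimThm

end Pool.Agent.H8.W
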