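import Mathlib
import Pool.Agent.H8.W.NTop
import Pool.Agent.H45.W.EndsJ9

set_option autoImplicit false
open Finset

/-! # C6, J7: the far end of the moving end in the `Y` worlds of a setup (J2) -/

namespace Pool.Agent.H8.W

open Filter Topology
open Pool.Agent.H6.W Pool.Agent.H61.W

/-- **J2 for `Y`.** -/
theorem farY {σ : ℝ} (hσ : σ ≤ 1) (S : Setup σ) : FarY S := by
  intro b hb
  filter_upwards [Pool.Agent.H71.W.Setup.ev_d S (show (0:ℝ) < 1 by norm_num),
    Pool.Agent.H71.W.Setup.cor_spec S S.b3, Pool.Agent.H71.W.Setup.cor_spec S S.b4,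
    Pool.Agent.H71.W.Setup.cor_ne S S.ne, Pool.Agent.H71.W.Setup.gp_spec S hb] with k h1 h2 h3 h4 h5
  obtain ⟨j, hj, hj', hg, -, -⟩ := h5
  filter_upwards [Pool.Agent.H71.W.Setup.ev_h S k] with n hn
  intro v hv ω hω o
  exact (Pool.Agent.H45.W.GY_exR (S.ok k) h1.le hσ hn h2.1 h3.1 h4 hv hj hj' (hg _) hω).1

end Pool.Agent.H8.W
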