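import Mathlib
import Pool.Agent.H8.W.NFar
import Pool.Agent.H67.W.NNum

set_option autoImplicit false
open Finset

/-! # C6, J7: the near bound of the junction step -/

namespace Pool.Agent.H8.W

open Filter Topology
open Pool.Agent.H6.W Pool.Agent.H61.W

/-- N3 in the form of `NTop` -/
theorem numArm : ∃ C e : ℝ, 0 ≤ C ∧ 0 < e ∧ NumArm C e (1 / 100) := by
  obtain ⟨C, e, hC, he, H⟩ := Pool.Agent.H67.W.ann_bound
  refine ⟨C, e, hC, he, ?_⟩
  intro b δ σ hb _ hσ0 hδ h hh x hx v hv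
  exact ⟨_, _, Pool.Agent.H67.W.nn_of hb hσ0 hδ hh hx hv, fun s => H b δ σ hb hσ0 hδ h hh s v.2⟩

/-- **J7: `YNear`.** There is a universal exponent `c > 0` such that the functional with both moving marks near
`P` is at most `CA σ ^ c`. -/
theorem yNear : ∃ CA c σ0 : ℝ, 0 ≤ CA ∧ 0 < c ∧ 0 < σ0 ∧ ∀ σ : ℝ, 0 < σ → σ ≤ σ0 →
    ∀ S : Setup σ, S.YNear (CA * σ ^ c) := by
  obtain ⟨C, e, hC, he, H⟩ := numArm
  refine ⟨3 * C, e, 1 / 100, by positivity, he, by norm_num, fun σ hσ hσ0 S => ?_⟩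
  exact yNear_of H hσ hσ0 S (farY (by linarith) S)

end Pool.Agent.H8.W
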