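import Pool.Agent.H87.W.HalfC

set_option autoImplicit false

/-! # Route W, group W-C: extension of a function on the half disc by its boundary limits -/

namespace Pool.Agent.H8.W

open Set Filter Topology Complex
open Pool.Agent.H87.W (HA CHA isOpen_HA)

lemma HA_sub : HA 0 ⊆ CHA 0 := fun _ h => ⟨h.1.le, h.2.1.le, h.2.2.le⟩

lemma CHA_sub : CHA 0 ⊆ closure (HA 0) := by
  intro v hv
  have hcv : Tendsto (fun s : ℝ => (1 - s : ℂ) * v + s / 2) (𝓝[>] 0) (𝓝 v) := by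
    have h : Tendsto (fun s : ℝ => (1 - s : ℂ) * v + s / 2) (𝓝 0) (𝓝 ((1 - (0:ℝ) : ℂ) * v + (0:ℝ) / 2)) := by
      apply Continuous.tendsto
      fun_prop
    simp only [ofReal_zero, sub_zero, one_mul, zero_div, add_zero] at h
    exact h.mono_left nhdsWithin_le_nhds
  refine mem_closure_of_tendsto hcv ?_
  filter_upwards [Ioo_mem_nhdsGT (show (0:ℝ) < 1 by norm_num)] with s hs
  have hre : 0 < ((1 - s : ℂ) * v + s / 2).re := by
    have : ((1 - s : ℂ) * v + s / 2).re = (1 - s) * v.re + s / 2 := by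
      have e1 : ((1 - s : ℂ) * v).re = (1 - s) * v.re := by
        rw [show (1 - s : ℂ) = ((1 - s : ℝ) : ℂ) by push_cast; rfl, re_ofReal_mul]
      have e2 : ((s : ℂ) / 2).re = s / 2 := by
        rw [show (s : ℂ) / 2 = ((s / 2 : ℝ) : ℂ) by push_cast; rfl, ofReal_re]
      rw [add_re, e1, e2]
    rw [this]
    have := hv.2.2
    have h1 : 0 ≤ (1 - s) * v.re := mul_nonneg (by linarith [hs.2]) this
    linarith [hs.1]
  refine ⟨norm_pos_iff.2 fun h0 => ?_, ?_, hre⟩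
  · rw [h0] at hre
    simp at hre
  · calc ‖(1 - s : ℂ) * v + s / 2‖ ≤ ‖(1 - s : ℂ) * v‖ + ‖(s : ℂ) / 2‖ := norm_add_le _ _
      _ = (1 - s) * ‖v‖ + s / 2 := by
          rw [norm_mul, show (1 - s : ℂ) = ((1 - s : ℝ) : ℂ) by push_cast; rfl, norm_real,
            Real.norm_of_nonneg (by linarith [hs.2]), norm_div, norm_real,
            Real.norm_of_nonneg hs.1.le]
          norm_num
      _ < 1 := by nlinarith [hv.2.1, hs.1, hs.2]

open Classical in
/-- extension by limits, `0` on the exceptional set -/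
noncomputable def ext (E : Set ℂ) (f : ℂ → ℂ) (v : ℂ) : ℂ :=
  if v ∈ E then 0 else extendFrom (HA 0) f v

variable {E : Set ℂ} {f : ℂ → ℂ}

lemma ext_in (hE : Disjoint E (HA 0)) (hf : ContinuousOn f (HA 0)) {v : ℂ} (hv : v ∈ HA 0) :
    ext E f v = f v := by
  rw [ext, if_neg (fun h => Set.disjoint_left.1 hE h hv)]
  exact extendFrom_eq (subset_closure hv) (hf v hv)

lemma ext_eq {v y : ℂ} (hE : v ∉ E) (hv : v ∈ CHA 0) (h : Tendsto f (𝓝[HA 0] v) (𝓝 y)) :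
    ext E f v = y := by
  rw [ext, if_neg hE]
  exact extendFrom_eq (CHA_sub hv) h

lemma ext_tendsto (hE : Disjoint E (HA 0)) (hf : ContinuousOn f (HA 0)) {v y : ℂ}
    (h : Tendsto f (𝓝[HA 0] v) (𝓝 y)) : Tendsto (ext E f) (𝓝[HA 0] v) (𝓝 y) := by
  refine h.congr' ?_
  filter_upwards [self_mem_nhdsWithin] with z hz
  exact (ext_in hE hf hz).symm

lemma ext_cont (hE : Disjoint E (HA 0)) (hf : ContinuousOn f (HA 0)) {v y : ℂ}
    (hvE : v ∉ E) (hv : v ∈ CHA 0) (h : Tendsto f (𝓝[HA 0] v) (𝓝 y)) :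
    ContinuousWithinAt (ext E f) (HA 0) v := by
  rw [ContinuousWithinAt, ext_eq hvE hv h]
  exact ext_tendsto hE hf h

lemma ext_diff (hE : Disjoint E (HA 0)) (hf : DifferentiableOn ℂ f (HA 0)) :
    DifferentiableOn ℂ (ext E f) (HA 0) :=
  hf.congr fun _ hv => ext_in hE hf.continuousOn hv

lemma ext_bdd {M : ℝ} (hM : 0 ≤ M) (hb : ∀ v ∈ HA 0, ‖f v‖ ≤ M)
    (hlim : ∀ v ∈ CHA 0 \ E, ∃ y, Tendsto f (𝓝[HA 0] v) (𝓝 y)) {v : ℂ} (hv : v ∈ CHA 0) :
    ‖ext E f v‖ ≤ M := by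
  by_cases h : v ∈ E
  · rw [ext, if_pos h, norm_zero]; exact hM
  · obtain ⟨y, hy⟩ := hlim v ⟨hv, h⟩
    rw [ext_eq h hv hy]
    have : (𝓝[HA 0] v).NeBot := mem_closure_iff_nhdsWithin_neBot.1 (CHA_sub hv)
    refine le_of_tendsto hy.norm ?_
    filter_upwards [self_mem_nhdsWithin] with z hz
    exact hb z hz

end Pool.Agent.H8.W
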