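import Pool.Agent.H44.W.CloseDef
import Pool.Agent.H35.W.Glue3

set_option autoImplicit false

/-! # Route W, group W-C: limits of lattice functions along two ultrafilters

`WLim` is 44's limit of box averages. `near_of_wlim` : if the lattice function is `ε`-close to a number `c`
near `z`, then so is the limit. `sum_of_wlim` : the same for the sum of the values at two places.
`montel_ultra` : a pointwise limit along an ultrafilter of functions which are locally eventually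
holomorphic and bounded is holomorphic. -/

namespace Pool.Agent.H8.W

open Set Filter Topology Complex
open Pool.Agent.Q1.M4 (lat)
open Pool.Agent.H44.W (av WLim)

/-! ### Box averages -/

lemma av_sub_const {m : ℕ} (hm : 0 < m) (f : ℤ × ℤ → ℂ) (c : ℂ) (v : ℤ × ℤ) :
    av m f v - c = (1 / ((m : ℂ) * m)) * ∑ k ∈ Finset.range m, ∑ l ∈ Finset.range m,
      (f (v + ((k : ℤ), (l : ℤ))) - c) := by
  have hm0 : (m : ℂ) ≠ 0 := by exact_mod_cast hm.ne'
  unfold av
  simp only [Finset.sum_sub_distrib, Finset.sum_const, Finset.card_range, nsmul_eq_mul]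
  field_simp

lemma av_close {m : ℕ} (hm : 0 < m) {f : ℤ × ℤ → ℂ} {c : ℂ} {v : ℤ × ℤ} {ε : ℝ}
    (h : ∀ k < m, ∀ l < m, ‖f (v + ((k : ℤ), (l : ℤ))) - c‖ ≤ ε) : ‖av m f v - c‖ ≤ ε := by
  have hm0 : (0 : ℝ) < m := by exact_mod_cast hm
  rw [av_sub_const hm, norm_mul]
  have h1 : ‖∑ k ∈ Finset.range m, ∑ l ∈ Finset.range m, (f (v + ((k : ℤ), (l : ℤ))) - c)‖ ≤
      ∑ k ∈ Finset.range m, ∑ l ∈ Finset.range m, ε := by
    refine (norm_sum_le _ _).trans (Finset.sum_le_sum fun k hk => ?_)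
    refine (norm_sum_le _ _).trans (Finset.sum_le_sum fun l hl => ?_)
    exact h k (Finset.mem_range.1 hk) l (Finset.mem_range.1 hl)
  simp only [Finset.sum_const, Finset.card_range, nsmul_eq_mul] at h1
  have h2 : ‖(1 / ((m : ℂ) * m))‖ = 1 / ((m : ℝ) * m) := by
    rw [norm_div, norm_mul, norm_one, Complex.norm_natCast]
  rw [h2]
  calc 1 / ((m : ℝ) * m) * _ ≤ 1 / ((m : ℝ) * m) * (m * (m * ε)) := by gcongr
    _ = ε := by field_simp

lemma av_add (m : ℕ) (f : ℤ × ℤ → ℂ) (g : ℤ × ℤ → ℂ) (v : ℤ × ℤ) :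
    av m (f + g) v = av m f v + av m g v := by
  unfold av
  simp only [Pi.add_apply, Finset.sum_add_distrib]
  ring

/-- the averages of `f` at `v` and at `v'` -/
lemma av_pair {m : ℕ} (hm : 0 < m) {f : ℤ × ℤ → ℂ} {v v' : ℤ × ℤ} {ε : ℝ}
    (h : ∀ k < m, ∀ l < m, ∀ k' < m, ∀ l' < m,
      ‖f (v + ((k : ℤ), (l : ℤ))) + f (v' + ((k' : ℤ), (l' : ℤ)))‖ ≤ ε) :
    ‖av m f v + av m f v'‖ ≤ ε := by
  have h1 : ‖av m f v' - (-(av m f v))‖ ≤ ε := by
    apply av_close hm
    intro k' hk' l' hl'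
    have h2 : ‖av m f v - (-(f (v' + ((k' : ℤ), (l' : ℤ)))))‖ ≤ ε := by
      apply av_close hm
      intro k hk l hl
      rw [sub_neg_eq_add]
      exact h k hk l hl k' hk' l' hl'
    rw [sub_neg_eq_add] at h2 ⊢
    rwa [add_comm]
  rw [sub_neg_eq_add] at h1
  rwa [add_comm]

end Pool.Agent.H8.W
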