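import Mathlib

set_option autoImplicit false

/-! # Route W, group W-C: joint measurability of a separately continuous function -/

namespace Pool.Agent.H8.W

open Set Filter Topology MeasureTheory

/-- Boundary values of a function which has a limit at every point of a curve are continuous. -/
lemma cont_of_limits {D : Set ℂ} {f : ℂ → ℂ} {γ : ℝ → ℂ} {g : ℝ → ℂ} {I : Set ℝ}
    (hγ : ContinuousOn γ I) (hD : ∀ t ∈ I, γ t ∈ closure D)
    (h : ∀ t ∈ I, Tendsto f (𝓝[D] (γ t)) (𝓝 (g t))) : ContinuousOn g I := by
  have h1 : ContinuousOn (extendFrom D f) (γ '' I) := by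
    apply continuousOn_extendFrom
    · rintro _ ⟨t, ht, rfl⟩; exact hD t ht
    · rintro _ ⟨t, ht, rfl⟩; exact ⟨_, h t ht⟩
  have h2 : ContinuousOn (fun t => extendFrom D f (γ t)) I := h1.comp hγ (mapsTo_image _ _)
  refine h2.congr fun t ht => ?_
  exact (extendFrom_eq (hD t ht) (h t ht)).symm

/-- A separately continuous function on a product of open sets is jointly measurable. -/
lemma measurable_of_sep {I J : Set ℝ} (hI : IsOpen I) (hJ : IsOpen J) {G : ℝ → ℝ → ℂ}
    (h1 : ∀ a ∈ J, ContinuousOn (fun t => G t a) I) (h2 : ∀ t ∈ I, ContinuousOn (fun a => G t a) J) :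
    Measurable (indicator (I ×ˢ J) fun q : ℝ × ℝ => G q.1 q.2) := by
  have h3 : Measurable (fun q : I × J => G q.1 q.2) := by
    apply measurable_uncurry_of_continuous_of_measurable (u := fun (t : I) (a : J) => G t a)
    · intro a
      exact continuousOn_iff_continuous_domRestrict.1 (h1 a a.2)
    · intro t
      exact (continuousOn_iff_continuous_domRestrict.1 (h2 t t.2)).measurable
  have hm := hI.measurableSet.prod hJ.measurableSet
  apply measurable_of_restrict_of_restrict_compl hm
  · have h5 : ((I ×ˢ J).domRestrict (indicator (I ×ˢ J) fun q : ℝ × ℝ => G q.1 q.2)) =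
        (fun q : I × J => G q.1 q.2) ∘ fun q : ↥(I ×ˢ J) => (⟨q.1.1, q.2.1⟩, ⟨q.1.2, q.2.2⟩) := by
      funext q
      simp only [Set.domRestrict_apply, Function.comp_apply]
      exact indicator_of_mem q.2 _
    rw [h5]
    apply h3.comp
    apply Measurable.prodMk
    · exact (measurable_fst.comp measurable_subtype_coe).subtype_mk
    · exact (measurable_snd.comp measurable_subtype_coe).subtype_mk
  · have h6 : ((I ×ˢ J)ᶜ.domRestrict (indicator (I ×ˢ J) fun q : ℝ × ℝ => G q.1 q.2)) =
        fun _ => 0 := by
      funext q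
      simp only [Set.domRestrict_apply]
      exact indicator_of_notMem q.2 _
    rw [h6]
    exact measurable_const

end Pool.Agent.H8.W
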